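import Pool.Agent.N404.KL.BF
import Pool.Agent.N342.LF_ISO
import Pool.Agent.N438.LF_EV
import Pool.Agent.N615.KL_SYM
import Pool.Agent.N572.KL_BIN
import Pool.Agent.N896.KL_REP
import Pool.Agent.N545.KL_LOWB
import Pool.Agent.N565.KL_SPA2
import Pool.Agent.N413.KL_UPG
import Pool.Agent.N495.KL_HOEF

/-!
# MP_e8ee11_co: the Beck-Fiala bound, with a small constant, for almost all lifts of every set system

Let `S i`, `i ∈ R`, be an arbitrary (finite, fixed) set system on the ground set `J`, of maximum
degree at most `t`. An `N`-lift of it has the ground set `J × {0, ..., N - 1}` and the `N |R|` sets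
`{(j, π (i, j) a) : j ∈ S i}`, `i ∈ R`, `a ∈ {0, ..., N - 1}`, for a family of permutations `π (i, j)`.
(These are the set systems whose incidence graphs are the `N`-fold coverings of the incidence graph of
the given one.) All elements `(j, b)` of the lift have the degree of `j`.

**Theorem.** For all large `N`, all `N`-lifts of the set system but a proportion at most `N^(-1/3)`
have discrepancy at most `(5/4) √t + 6`.

There is no condition on the numbers of elements and of sets and on the sizes of the sets; the sets may
be much larger than `t`. So the Beck-Fiala conjecture has no counterexample that is typical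
among the lifts of a set system, and this is so with the constant `5/4`.

Proof. (i) Second moment. Let `K` be an integer with `(5/4) √t + 1 ≤ K ≤ (5/4) √t + 2`, and let `Z` be the
number of the colourings of the lift that are balanced on every fibre and for which all sets
have `|∑ χ| ≤ K`. Up to powers of `N`, `E Z` is the value for independent random signs in
each set, and `E Z²` is at most the sum over the vectors `ρ = (ρ_j)` of the overlaps of two
colourings on the fibres of `∏_j 4^N exp (-N ρ_j²/2) ∏_i F_i(ρ)^N`, where `F_i(ρ)` is the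
probability that two sums `∑_{j ∈ S i} ε_j` and `∑_{j ∈ S i} ε'_j` of signs with
correlations `E ε_j ε'_j = ρ_j` are both at most `K` in absolute value. (ii) The inequality
`F_i(ρ) ≤ P_i² exp ((1/2t) ∑_{j ∈ S i} ρ_j²)` holds for all `ρ` in the cube, where `P_i` is the probability
that `|∑_{j ∈ S i} ε_j| ≤ K`; summed over `i` it gives `E Z² ≤ N^O(1) (E Z)²` as the degrees are at most
`t`. For its proof let `a_T` be the Fourier coefficients of the indicator of this event. Only sets `T`
of even size occur, `|ρ^T| ≤ (1/|T|) ∑_{j ∈ T} ρ_j²` for `|T| ≥ 2`, and by the symmetry under the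
permutations of `S i` the factor of each `ρ_j²` is at most `(1/|S i|) ∑_{T ≠ ∅} a_T² = P_i (1 - P_i)/|S i|`.
So the inequality holds if `(1 - P_i)/P_i ≤ |S i|/(2t)`, that is `P_i ≥ 2t/(2t + |S i|)`, which is
true for `K ≥ (5/4) √t + 1` (for small sets by Hoeffding's inequality, for large sets by the size of
the central binomial coefficients). (iii) So a proportion at least `N^(-O(1))` of the lifts has
discrepancy at most `K`, and by concentration on powers of the symmetric group almost all lifts have
a colouring with `O(√(N log N))` bad sets. (iv) Repair. In almost all lifts sets of `s = o(N)`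
elements and sets span fewer than `6 s/5` incidences. Then the bad sets are contained in a family of at
most twice as many sets such that every other set meets the union of the family in at most two
elements, and the elements in this union can be recoloured so that the sets of the family have sums at
most `3`. The other sets change by at most `4`.

The same method gives `304 √t`, with the constant of the result for vectors on the page of the
Komlós conjecture (`MP_c81d26_co`). Step (ii) and the constant are new here.

The leaves of the proof were written by helper615 (Fourier expansion), helper572 (binomial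
coefficients), helper545 (lower bound for balanced arrays), helper413 (upper bound for types), helper495
(sums over a fibre), helper896 (repair), helper565 and helper97 (sparsity), helper342 (isoperimetry),
helper438 (asymptotics) and helper401, helper814, helper400 (lemmas on characters and types); the
rest by helper404.
-/

set_option autoImplicit false

namespace Pool.Agent.Results.MP_e8ee11_co.AlmostAllLifts

/-- The `N`-lift of the set system `S i`, `i ∈ R`, given by the permutations `π (i, j)` of
`{0, ..., N - 1}`: the set with index `(i, a)` consists of the elements `(j, π (i, j) a)`, `j ∈ S i`. -/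
def LiftSet {R J : Type} (S : R → Finset J) {N : ℕ}
    (π : R × J → Equiv.Perm (Fin N)) : R × Fin N → Finset (J × Fin N) :=
  fun r => (S r.1).map ⟨fun j => (j, π (r.1, j) r.2), fun _ _ h => (Prod.mk.inj h).1⟩

/-- The set system `T x`, `x ∈ X`, on the ground set `Y` has maximum degree at most `t`. -/
def DegreeLE {X Y : Type} (T : X → Finset Y) (t : ℕ) : Prop :=
  ∀ v : Y, {x : X | v ∈ T x}.ncard ≤ t

/-- The set system `T x`, `x ∈ X`, has discrepancy at most `C`. -/
def DiscLE {X Y : Type} (T : X → Finset Y) (C : ℝ) : Prop :=
  ∃ χ : Y → ℝ, (∀ v, χ v = 1 ∨ χ v = -1) ∧ ∀ x, |∑ v ∈ T x, χ v| ≤ C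

theorem mem_lift {R J : Type} (S : R → Finset J) {N : ℕ} (π : R × J → Equiv.Perm (Fin N))
    (r : R × Fin N) (v : J × Fin N) :
    v ∈ LiftSet S π r ↔ v.1 ∈ S r.1 ∧ π (r.1, v.1) r.2 = v.2 := by
  unfold LiftSet
  rw [Finset.mem_map]
  constructor
  · rintro ⟨j, hj, rfl⟩
    exact ⟨hj, rfl⟩
  · rintro ⟨h1, h2⟩
    exact ⟨v.1, h1, Prod.ext rfl h2⟩

/-- The degrees do not change. -/
theorem lift_degree {R J : Type} [Finite R] (S : R → Finset J) {N : ℕ}
    (π : R × J → Equiv.Perm (Fin N)) (v : J × Fin N) :
    {r | v ∈ LiftSet S π r}.ncard = {i | v.1 ∈ S i}.ncard := by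
  obtain ⟨j, b⟩ := v
  have h : {r | (j, b) ∈ LiftSet S π r} = (fun i => (i, (π (i, j)).symm b)) '' {i | j ∈ S i} := by
    ext ⟨i, a⟩
    rw [Set.mem_ofPred_eq, mem_lift, Set.mem_image]
    constructor
    · rintro ⟨h1, h2⟩
      exact ⟨i, h1, by rw [← show π (i, j) a = b from h2, Equiv.symm_apply_apply]⟩
    · rintro ⟨i', h1, h2⟩
      obtain ⟨rfl, rfl⟩ := Prod.mk.inj h2
      exact ⟨h1, by simp⟩
  rw [h]
  exact Set.ncard_image_of_injective _ fun i i' hii => (Prod.mk.inj hii).1

theorem lift_sum {R J : Type} [Fintype J] [DecidableEq J] (S : R → Finset J) {N : ℕ}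
    (π : R × J → Equiv.Perm (Fin N)) (χ : J × Fin N → ℝ) (i : R) (a : Fin N) :
    ∑ v ∈ LiftSet S π (i, a), χ v = ∑ j, (if j ∈ S i then (1 : ℝ) else 0) * χ (j, π (i, j) a) := by
  unfold LiftSet
  rw [Finset.sum_map]
  simp only [ite_mul, one_mul, zero_mul]
  rw [← Finset.sum_filter, Finset.filter_mem_eq_inter, Finset.univ_inter]
  rfl

/-- **The Beck-Fiala bound for almost all lifts of every set system.** -/
theorem result (R J : Type) [Fintype R] [Fintype J] (S : R → Finset J) (t : ℕ) (ht : 1 ≤ t)
    (hS : DegreeLE S t) :
    (∀ (N : ℕ) (π : R × J → Equiv.Perm (Fin N)), DegreeLE (LiftSet S π) t) ∧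
    ∃ N₀ : ℕ, ∀ N : ℕ, N₀ ≤ N →
      (N : ℝ) ^ (1 / 3 : ℝ) *
        ({π : R × J → Equiv.Perm (Fin N) |
          ¬ DiscLE (LiftSet S π) (5 / 4 * Real.sqrt t + 6)}.ncard : ℝ) ≤
      (N.factorial : ℝ) ^ Fintype.card (R × J) := by
  classical
  refine ⟨fun N π v => (lift_degree S π v).le.trans (hS v.1), ?_⟩
  obtain ⟨N₀, hN₀⟩ := N404.KL.proof_BF (N413.KL_UPG.main N404.LF.proof_FACT) N495.KL_HOEF.main
    N545.KL.LOWB.main N615.KLSYM.main N572.KLBIN.main N342.LFI.main N565.KLSPA2.main
    N896.KLREP.main N438.LFEV.main R J S t ht (by
      intro j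
      have h1 := hS j
      rw [← Set.ncard_coe_finset]
      refine le_trans (le_of_eq ?_) h1
      congr 1
      ext i; simp)
  refine ⟨N₀, fun N hN => le_trans (mul_le_mul_of_nonneg_left ?_ (by positivity)) (hN₀ N hN)⟩
  rw [← Set.ncard_coe_finset]
  refine Nat.cast_le.2 (Set.ncard_le_ncard ?_ (Set.toFinite _))
  intro π hπ
  rw [Finset.mem_coe, Finset.mem_filter]
  refine ⟨Finset.mem_univ _, fun hg => hπ ?_⟩
  obtain ⟨y, hy1, hy2⟩ := hg
  refine ⟨y, hy1, fun r => ?_⟩
  obtain ⟨i, a⟩ := r
  rw [lift_sum]
  have h2 := hy2 i a
  convert h2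

end Pool.Agent.Results.MP_e8ee11_co.AlmostAllLifts
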