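import Pool.Agent.N421.KD.Prefix

set_option autoImplicit false

/-!
# The Beck–Fiala problem: `O(√t log D)` for all sets of size at most `D`

There is an absolute constant `C` such that for every set system (any number of points, any number
of sets, any sizes, any degrees), all positive reals `T_S` with `∑_{S ∋ i} 1 / T_S ≤ 1` for every
point `i`, and every `D ≥ 1` there is a colouring with
`|χ(S)| ≤ C √T_S (1 + log D) (1 + |S| / D)` for all sets `S`, for which moreover all the initial
segments of the ground set have discrepancy at most one.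

If the maximum degree is at most `t`, all the `T_S` can be `t`. So for every `λ ≥ 0` all the sets of
size at most `e^λ` can have discrepancy `O(√t (1 + λ))` in one colouring; this is `o(t)` as long as
the sizes are `exp (o (√t))`.

Proof: see `Pool/Agent/N421/KD` (a dimension-free bound for the Komlós problem that is logarithmic
in the number of nonzero entries of the rows).
-/

open Finset

namespace Pool.Agent.Results.MP_e8ee11_co.LogOfSetSize

/-- the scaled incidence matrix -/
noncomputable def A {n m : ℕ} (T : Fin m → ℝ) (S : Fin m → Finset (Fin n)) (j : Fin m)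
    (i : Fin n) : ℝ := if i ∈ S j then (Real.sqrt (T j))⁻¹ else 0

theorem result : ∃ C : ℝ, 0 < C ∧
    ∀ (n m D : ℕ) (S : Fin m → Finset (Fin n)) (T : Fin m → ℝ), 1 ≤ D → (∀ j, 0 < T j) →
      (∀ i, ∑ j ∈ univ.filter (fun j : Fin m => i ∈ S j), 1 / T j ≤ 1) →
      ∃ χ : Fin n → ℤ, (∀ i, χ i = 1 ∨ χ i = -1) ∧
        (∀ j, ((|∑ i ∈ S j, χ i| : ℤ) : ℝ) ≤
          C * Real.sqrt (T j) * (1 + Real.log D) * (1 + ((S j).card : ℝ) / D)) ∧
        ∀ c : ℕ, |∑ i ∈ univ.filter (fun i : Fin n => (i : ℕ) < c), χ i| ≤ 1 := by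
  classical
  obtain ⟨C2, hC2, h2⟩ := Pool.Agent.N421.KD.cut_prefix
  refine ⟨C2, hC2, ?_⟩
  intro n m D S T hD hT hdeg
  have hs : ∀ j, 0 < Real.sqrt (T j) := fun j => Real.sqrt_pos.2 (hT j)
  have hcol : ∀ i, ∑ j, A T S j i ^ 2 ≤ 1 := by
    intro i
    have e1 : ∀ j, A T S j i ^ 2 = if i ∈ S j then 1 / T j else 0 := by
      intro j
      simp only [A]
      split_ifs
      · rw [inv_pow, Real.sq_sqrt (hT j).le, one_div]
      · norm_num
    simp only [e1]
    rw [← Finset.sum_filter]
    exact hdeg i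
  have hrow : ∀ (y : Fin n → ℝ) (j : Fin m),
      ∑ i ∈ S j, y i = Real.sqrt (T j) * ∑ i, A T S j i * y i := by
    intro y j
    have e1 : ∀ i, A T S j i * y i = if i ∈ S j then (Real.sqrt (T j))⁻¹ * y i else 0 := by
      intro i
      simp only [A]
      split_ifs
      · rfl
      · ring
    simp only [e1]
    rw [← Finset.sum_filter, Finset.filter_mem_eq_inter, Finset.univ_inter, ← Finset.mul_sum,
      ← mul_assoc, mul_inv_cancel₀ (hs j).ne', one_mul]
  obtain ⟨x, x1, x2, x3⟩ := h2 D hD n (Fin m) (A T S) hcol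
  obtain ⟨χ, c1, c2⟩ : ∃ χ : Fin n → ℤ, (∀ i, χ i = 1 ∨ χ i = -1) ∧ ∀ i, (χ i : ℝ) = x i := by
    refine ⟨fun i => if x i = 1 then 1 else -1, fun i => ?_, fun i => ?_⟩
    · dsimp only
      split_ifs
      · exact Or.inl rfl
      · exact Or.inr rfl
    · dsimp only
      rcases x1 i with h | h
      · rw [if_pos h, h]; norm_num
      · rw [if_neg (by rw [h]; norm_num), h]; norm_num
  refine ⟨χ, c1, fun j => ?_, fun c => ?_⟩
  · have e0 : ((|∑ i ∈ S j, χ i| : ℤ) : ℝ) = |∑ i ∈ S j, (χ i : ℝ)| := by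
      push_cast
      rfl
    rw [e0, hrow (fun i => (χ i : ℝ)) j, abs_mul, abs_of_pos (hs j)]
    simp only [c2]
    have e1 := x2 j
    have e2 : Pool.Agent.R959.LD2.supp (A T S j) = S j := by
      ext i
      rw [Pool.Agent.R959.LD2.mem_supp]
      simp only [A]
      split_ifs with h3
      · simp [h3, (hs j).ne']
      · simp [h3]
    rw [e2] at e1
    calc Real.sqrt (T j) * |∑ i, A T S j i * x i| ≤ Real.sqrt (T j) *
          (C2 * (1 + Real.log D) * (1 + ((S j).card : ℝ) / D)) :=
          mul_le_mul_of_nonneg_left e1 (hs j).le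
      _ = _ := by ring
  · have h6 := x3 c
    have e0 : ((|∑ i ∈ univ.filter (fun i : Fin n => (i : ℕ) < c), χ i| : ℤ) : ℝ) =
        |∑ i ∈ univ.filter (fun i : Fin n => (i : ℕ) < c), x i| := by
      push_cast
      simp only [c2]
    have h7 : ((|∑ i ∈ univ.filter (fun i : Fin n => (i : ℕ) < c), χ i| : ℤ) : ℝ) ≤
        ((1 : ℤ) : ℝ) := by
      rw [e0]
      push_cast
      exact h6
    exact_mod_cast h7

end Pool.Agent.Results.MP_e8ee11_co.LogOfSetSize
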