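import Mathlib
import Pool.Agent.N243.Dist

/-!
# Random colourings with small tails for every set

Let `a` be a real `m × n` matrix with `|a i j| ≤ 1` and `∑ i, (a i j)² ≤ t` for all `j`, `t ≥ 1`, for
example the incidence matrix of a system of `m` sets on `n` elements of maximum degree at most `t`
(or `a = v / δ`, `t = δ⁻²`, for vectors `v_j` in the unit ball with entries at most `δ`). For every
starting point `x⁰ ∈ [-1,1]^n` and every `X ≥ 1` there is a probability distribution on
`x ∈ {1,-1}^n` such that, with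
`b = min (3120 √t + 832000 √X (1 + log t)^{3/2}) (42500 √t X^{1/4})`,

* for each row `i` and every integer `p ≥ 1` the probability that `|∑ j, a i j (x_j - x⁰_j)| > p b`
  is at most `exp (- p X)`;
* surely all the `|∑ j, a i j (x_j - x⁰_j)|` are at most `b (1 + log (min m n) / X)`, and at most
  `20 t + b` if the entries of `a` are `0`, `1` and `-1`.

The first bound does not depend on `m`, `n` or the number of nonzero entries of the rows. For set
systems of maximum degree at most `t` and `X = t / (1 + log t)³`, if this is at least `1`, it says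
that every single set has discrepancy `O(p √t)` with probability at least
`1 - exp (- p t / (1 + log t)³)`; for Komlós's problem (`t = 1`), that every single coordinate is at
most `42500 p X^{1/4}` with probability at least `1 - exp (- p X)`.
-/

set_option autoImplicit false

namespace Pool.Agent.Results.MP_e8ee11_co.TailsForEverySet

open Finset Real

/-- The bound `b`. -/
noncomputable def bound (t X : ℝ) : ℝ :=
  min (3120 * Real.sqrt t + 832000 * Real.sqrt X * (1 + Real.log t) ^ (3 / 2 : ℝ))
    (42500 * Real.sqrt t * X ^ (1 / 4 : ℝ))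

/-- The `i`-th row sum of `a` at `x - x₀`, in absolute value. -/
def rowSum {m n : ℕ} (a : Fin m → Fin n → ℝ) (x₀ x : Fin n → ℝ) (i : Fin m) : ℝ :=
  |∑ j, a i j * (x j - x₀ j)|

/-- **Random signings with small tails for every row.** -/
theorem result (m n : ℕ) (a : Fin m → Fin n → ℝ) (t : ℝ) (ht : 1 ≤ t)
    (ha : ∀ i j, |a i j| ≤ 1) (hcol : ∀ j, ∑ i, a i j ^ 2 ≤ t)
    (x₀ : Fin n → ℝ) (hx₀ : ∀ j, |x₀ j| ≤ 1) (X : ℝ) (hX : 1 ≤ X) :
    ∃ (K : ℕ) (w : Fin K → ℝ) (x : Fin K → Fin n → ℝ),
      (∀ k, 0 ≤ w k) ∧ ∑ k, w k = 1 ∧ (∀ k j, x k j = 1 ∨ x k j = -1) ∧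
      (∀ (i : Fin m) (p : ℕ), 1 ≤ p →
        ∑ k, (if p * bound t X < rowSum a x₀ (x k) i then w k else 0) ≤ Real.exp (-(p * X))) ∧
      (∀ k i, rowSum a x₀ (x k) i ≤ bound t X * (1 + Real.log (min m n : ℕ) / X)) ∧
      ((∀ i j, a i j = 0 ∨ a i j = 1 ∨ a i j = -1) →
        ∀ k i, rowSum a x₀ (x k) i ≤ 20 * t + bound t X) := by
  classical
  set ε : ℝ := Real.exp (-X) with hε
  have hε0 : 0 < ε := Real.exp_pos _
  have hε1 : ε ≤ 1 / 2 := by
    have h1 : ε ≤ Real.exp (-1) := by
      rw [hε]
      apply Real.exp_le_exp.mpr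
      linarith
    refine h1.trans ?_
    rw [Real.exp_neg, ← one_div, div_le_div_iff₀ (Real.exp_pos 1) (by norm_num)]
    have := Real.exp_one_gt_d9
    linarith
  have hlogε : Real.log (1 / ε) = X := by
    rw [hε, one_div, ← Real.exp_neg, neg_neg, Real.log_exp]
  have hbd : Pool.Agent.N243.bd t ε = bound t X := by
    unfold Pool.Agent.N243.bd bound
    rw [hlogε]
  obtain ⟨K, w, x, hw, hw1, hx, hp⟩ :=
    Pool.Agent.N243.distribution a t ht ha hcol x₀ hx₀ ε hε0 hε1
  refine ⟨K, w, x, hw, hw1, fun k j => (hx k).1 j, fun i p hp1 => ?_, fun k i => ?_,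
    fun h01 k i => ?_⟩
  · have h1 := hp i p hp1
    have h2 : ε ^ p = Real.exp (-(p * X)) := by
      rw [hε, ← Real.exp_nat_mul]
      congr 1
      ring
    rw [h2, hbd, Finset.sum_filter] at h1
    exact h1
  · have h1 := (hx k).2.1 i
    rw [hlogε, hbd] at h1
    exact h1
  · have h1 := (hx k).2.2 (fun i j => by
      rcases h01 i j with h | h | h <;> rw [h] <;> norm_num) i
    rw [hbd] at h1
    exact h1

end Pool.Agent.Results.MP_e8ee11_co.TailsForEverySet
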